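import Pool.Agent.Helper458.Sph.P_sharp
import Pool.Agent.Helper458.Sph.P_cs_le
import Pool.Agent.Helper458.Sph.P_sig_univ
import Pool.Agent.Helper458.Sph.P_sig_pos

set_option autoImplicit false

open MeasureTheory
open scoped Real ENNReal

namespace Pool.Agent.Results.MP_404158_an.SharpS7

open Pool.Sph

/-- `W_a = |S⁷|⁻² ‖σ̂‖₄⁴ + a |S⁷|²`, with `σ̂ = ext 1` and `|S⁷| = sig univ`. -/
noncomputable def W (a : ℝ) : ℝ≥0∞ :=
  (sig Set.univ)⁻¹ ^ 2 * eLpNorm (ext fun _ => 1) 4 volume ^ 4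
    + ENNReal.ofReal a * sig Set.univ ^ 2

/-- `a > 0` is admissible: every complex-valued `f ∈ L²(S⁷)` satisfies
`‖(fσ)^‖₄⁴ + a |∫ f dσ|⁴ ≤ W_a ‖f‖₂⁴`, with equality only when `f` is a.e. constant. -/
def Admissible (a : ℝ) : Prop :=
  0 < a ∧ ∀ f : S7 → ℂ, MemLp f 2 sig →
    (eLpNorm (ext f) 4 volume ^ 4 + ENNReal.ofReal a * ‖∫ ω, f ω ∂sig‖ₑ ^ 4
        ≤ W a * eLpNorm f 2 sig ^ 4) ∧
    (eLpNorm (ext f) 4 volume ^ 4 + ENNReal.ofReal a * ‖∫ ω, f ω ∂sig‖ₑ ^ 4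
        = W a * eLpNorm f 2 sig ^ 4 → ∃ c : ℂ, f =ᵐ[sig] fun _ => c)

theorem adm (a : ℝ) (ha : 0 < a) : Admissible a := by
  refine ⟨ha, fun f hf => ?_⟩
  obtain ⟨h1, h2⟩ := sharp f hf
  obtain ⟨h3, h4⟩ := cs_le f hf
  have e : W a * eLpNorm f 2 sig ^ 4 =
      ((sig Set.univ)⁻¹ ^ 2 * eLpNorm (ext fun _ => 1) 4 volume ^ 4) * eLpNorm f 2 sig ^ 4 +
        ENNReal.ofReal a * (sig Set.univ ^ 2 * eLpNorm f 2 sig ^ 4) := by
    unfold W; ring
  have hfin : eLpNorm f 2 sig ^ 4 ≠ ⊤ := ENNReal.pow_ne_top hf.2.ne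
  have hfin1 : eLpNorm (ext f) 4 volume ^ 4 ≠ ⊤ := ENNReal.pow_ne_top h2.2.ne
  have ha0 : ENNReal.ofReal a ≠ 0 := by simpa using ha
  have hat : ENNReal.ofReal a ≠ ⊤ := ENNReal.ofReal_ne_top
  constructor
  · rw [e]
    gcongr
  · intro h
    rw [e] at h
    apply h4
    by_contra hne
    have hlt : ‖∫ ω, f ω ∂sig‖ₑ ^ 4 < sig Set.univ ^ 2 * eLpNorm f 2 sig ^ 4 :=
      lt_of_le_of_ne h3 hne
    have hlt2 : ENNReal.ofReal a * ‖∫ ω, f ω ∂sig‖ₑ ^ 4 <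
        ENNReal.ofReal a * (sig Set.univ ^ 2 * eLpNorm f 2 sig ^ 4) :=
      (ENNReal.mul_lt_mul_iff_right ha0 hat).2 hlt
    have := ENNReal.add_lt_add_of_le_of_lt hfin1 h1 hlt2
    exact absurd h this.ne

theorem const_eq (a : ℝ) :
    eLpNorm (ext fun _ => 1) 4 volume ^ 4 + ENNReal.ofReal a * ‖∫ _ω : S7, (1 : ℂ) ∂sig‖ₑ ^ 4
        = W a * eLpNorm (fun _ : S7 => (1 : ℂ)) 2 sig ^ 4 := by
  have h0 : sig Set.univ ≠ 0 := by
    intro h
    have := sig_pos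
    simp [Measure.real, h] at this
  have ht : sig Set.univ ≠ ⊤ := measure_ne_top _ _
  have e1 : ‖∫ _ω : S7, (1 : ℂ) ∂sig‖ₑ = sig Set.univ := by
    rw [integral_const, Complex.real_smul, mul_one]
    rw [← ofReal_norm, Complex.norm_real, Real.norm_of_nonneg measureReal_nonneg]
    exact ENNReal.ofReal_toReal ht
  have e2 : eLpNorm (fun _ : S7 => (1 : ℂ)) 2 sig ^ 4 = sig Set.univ ^ 2 := by
    rw [eLpNorm_const' (1 : ℂ) (by norm_num) (by norm_num)]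
    rw [enorm_one, one_mul, ← ENNReal.rpow_natCast, ← ENNReal.rpow_mul, ← ENNReal.rpow_natCast]
    norm_num
  rw [e1, e2, W, add_mul]
  have e3 : (sig Set.univ)⁻¹ ^ 2 * sig Set.univ ^ 2 = 1 := by
    rw [← mul_pow, ENNReal.inv_mul_cancel h0 ht, one_pow]
  calc eLpNorm (ext fun _ => 1) 4 volume ^ 4 + ENNReal.ofReal a * sig Set.univ ^ 4
      = ((sig Set.univ)⁻¹ ^ 2 * sig Set.univ ^ 2) * eLpNorm (ext fun _ => 1) 4 volume ^ 4
          + ENNReal.ofReal a * sig Set.univ ^ 4 := by rw [e3, one_mul]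
    _ = _ := by ring

/-- The threshold `a_*` is `0`: every `a > 0` is admissible. Moreover the sharp unweighted
`L²(S⁷) → L⁴(ℝ⁸)` extension inequality holds with constants as maximisers. -/
theorem result :
    -- the total mass of the surface measure is `π⁴/3`
    sig Set.univ = ENNReal.ofReal (π ^ 4 / 3) ∧
    -- all norms below are finite
    (∀ f : S7 → ℂ, MemLp f 2 sig → MemLp (ext f) 4 volume) ∧
    -- the sharp extension inequality on `S⁷` (the case `a = 0` of the inequality)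
    (∀ f : S7 → ℂ, MemLp f 2 sig → eLpNorm (ext f) 4 volume ^ 4 ≤
      ((sig Set.univ)⁻¹ ^ 2 * eLpNorm (ext fun _ => 1) 4 volume ^ 4) * eLpNorm f 2 sig ^ 4) ∧
    -- `W_a` is the value of the ratio at the constant function `1`
    (∀ a : ℝ, 0 < a → eLpNorm (ext fun _ => 1) 4 volume ^ 4
        + ENNReal.ofReal a * ‖∫ _ω : S7, (1 : ℂ) ∂sig‖ₑ ^ 4
        = W a * eLpNorm (fun _ : S7 => (1 : ℂ)) 2 sig ^ 4) ∧
    -- every `a > 0` is admissible
    (∀ a : ℝ, 0 < a → Admissible a) ∧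
    -- `a_* = 0`
    sInf {a : ℝ | Admissible a} = 0 := by
  refine ⟨sig_univ, fun f hf => (sharp f hf).2, fun f hf => (sharp f hf).1,
    fun a _ => const_eq a, adm, ?_⟩
  have : {a : ℝ | Admissible a} = Set.Ioi 0 := by
    ext a
    exact ⟨fun h => h.1, fun h => adm a h⟩
  rw [this, csInf_Ioi]

end Pool.Agent.Results.MP_404158_an.SharpS7
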